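import Pool.Graph.R_pool_sql_team_seeded_1acbe0a2.Y972.WAP.Main

/-!
# Nonexpansive retractions onto common fixed point sets (method of Bruck)
-/

set_option autoImplicit false

open Filter Topology Set
open scoped BoundedContinuousFunction
open Pool.Agent.Y972.WAP (WAPspace IsLIM)

namespace Pool.Agent.H54.NR

/-- Bruck's lemma: a compact semigroup of nonexpansive maps that fix `F`, some of which moves any given
point into `F`, contains a map of the whole space into `F`. -/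
theorem bruck {X ι : Type*} [TopologicalSpace X] [CompactSpace X] [T2Space X] (d : ι → X → X → ℝ)
    (hcl : ∀ i c, IsClosed {p : X × X | d i p.1 p.2 ≤ c}) (h0 : ∀ i x, d i x x = 0)
    (hsep : ∀ x y, (∀ i, d i x y ≤ 0) → x = y)
    (N : Set (X → X)) (hN : IsClosed N) (hid : id ∈ N) (hcomp : ∀ f ∈ N, ∀ g ∈ N, f ∘ g ∈ N)
    (hne : ∀ f ∈ N, ∀ i x y, d i (f x) (f y) ≤ d i x y)
    (F : Set X) (hF : ∀ f ∈ N, ∀ x ∈ F, f x = x) (hz : ∀ z, ∃ f ∈ N, f z ∈ F) :
    ∃ r ∈ N, ∀ z, r z ∈ F := by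
  let L : (X → X) → Set (X → X) := fun f =>
    {g | g ∈ N ∧ ∀ i x y, d i (g x) (g y) ≤ d i (f x) (f y)}
  have hLcl : ∀ f, IsClosed (L f) := by
    intro f
    have : L f = N ∩ ⋂ i, ⋂ x, ⋂ y, {g : X → X | d i (g x) (g y) ≤ d i (f x) (f y)} := by
      ext g
      simp [L]
    rw [this]
    refine hN.inter (isClosed_iInter fun i => isClosed_iInter fun x => isClosed_iInter fun y => ?_)
    exact (hcl i (d i (f x) (f y))).preimage
      ((continuous_apply x).prodMk (continuous_apply y) : Continuous fun g : X → X => (g x, g y))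
  obtain ⟨m, hm⟩ := zorn_superset {A | ∃ f ∈ N, A = L f} (by
    intro c hc hchain
    rcases c.eq_empty_or_nonempty with rfl | hcne
    · exact ⟨L id, ⟨id, hid, rfl⟩, by simp⟩
    · have hne' : (⋂₀ c).Nonempty := by
        have := hcne.to_subtype
        apply IsCompact.nonempty_sInter_of_directed_nonempty_isCompact_isClosed
        · intro A hA B hB
          rcases hchain.total hA hB with h | h
          · exact ⟨A, hA, subset_rfl, h⟩
          · exact ⟨B, hB, h, subset_rfl⟩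
        · intro A hA
          obtain ⟨f, hf, rfl⟩ := hc hA
          exact ⟨f, hf, fun i x y => le_rfl⟩
        · intro A hA
          obtain ⟨f, hf, rfl⟩ := hc hA
          exact (hLcl f).isCompact
        · intro A hA
          obtain ⟨f, hf, rfl⟩ := hc hA
          exact hLcl f
      obtain ⟨g, hg⟩ := hne'
      obtain ⟨A, hA⟩ := hcne
      obtain ⟨f, hf, hAf⟩ := hc hA
      have hgN : g ∈ N := by
        have := hg A hA
        rw [hAf] at this
        exact this.1
      refine ⟨L g, ⟨g, hgN, rfl⟩, fun B hB => ?_⟩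
      obtain ⟨f', hf', rfl⟩ := hc hB
      intro h hh
      exact ⟨hh.1, fun i x y => (hh.2 i x y).trans ((hg _ hB).2 i x y)⟩)
  obtain ⟨r, hr, rfl⟩ := hm.prop
  refine ⟨r, hr, fun z => ?_⟩
  obtain ⟨f, hf, hfz⟩ := hz (r z)
  have h1 : L (f ∘ r) ⊆ L r := fun g hg =>
    ⟨hg.1, fun i x y => (hg.2 i x y).trans (hne f hf i (r x) (r y))⟩
  have h2 : L r ⊆ L (f ∘ r) := hm.le_of_le ⟨f ∘ r, hcomp f hf r hr, rfl⟩ h1
  have h3 : r ∈ L (f ∘ r) := h2 ⟨hr, fun i x y => le_rfl⟩
  have h4 : r z = f (r z) := by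
    apply hsep
    intro i
    have h5 := h3.2 i z (f (r z))
    simp only [Function.comp_apply] at h5
    rw [hF r hr _ hfz, hF f hf _ hfz, h0] at h5
    exact h5
  rw [h4]
  exact hfz

section

variable {𝕜 𝕂 S E ι : Type*} [RCLike 𝕜] [RCLike 𝕂]
  [Semigroup S] [TopologicalSpace S] [SeparatelyContinuousMul S]
  [AddCommGroup E] [Module 𝕜 E] [TopologicalSpace E] [T2Space E]

/-- The common fixed point theorem of the library, for closed convex invariant subsets. -/
theorem fixed_in (hS : ∃ m : WAPspace 𝕂 S →ₗ[𝕂] 𝕂, IsLIM m)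
    (Q : SeminormFamily 𝕜 E ι) (hQ : WithSeminorms Q)
    (hT2 : T2Space (WeakSpace 𝕜 E))
    (C : Set (WeakSpace 𝕜 E)) (hC : IsCompact C)
    (hconv : ∀ x ∈ C, ∀ y ∈ C, ∀ a b : ℝ, 0 ≤ a → 0 ≤ b → a + b = 1 →
      (a : 𝕜) • x + (b : 𝕜) • y ∈ C)
    (T : S → C → C) (hmul : ∀ s t x, T (s * t) x = T s (T t x))
    (hT : ∀ s, Continuous (T s)) (hTc : ∀ x, Continuous fun s => T s x)
    (hqe : ∀ g ∈ closure (range T), Continuous g)
    (hnonexp : ∀ (s : S) (i : ι) (x y : C),
      Q i ((toWeakSpace 𝕜 E).symm (T s x) - (toWeakSpace 𝕜 E).symm (T s y)) ≤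
        Q i ((toWeakSpace 𝕜 E).symm x - (toWeakSpace 𝕜 E).symm y))
    (K : Set C) (hK : IsClosed K) (hKne : K.Nonempty)
    (hKconv : ∀ x ∈ K, ∀ y ∈ K, ∀ a b : ℝ, 0 ≤ a → 0 ≤ b → a + b = 1 →
      ∀ z : C, (z : WeakSpace 𝕜 E) = (a : 𝕜) • (x : WeakSpace 𝕜 E) + (b : 𝕜) • (y : WeakSpace 𝕜 E) →
        z ∈ K)
    (hKinv : ∀ s, ∀ x ∈ K, T s x ∈ K) :
    ∃ x ∈ K, ∀ s, T s x = x := by
  have hCc : CompactSpace C := isCompact_iff_compactSpace.1 hC
  let C' : Set (WeakSpace 𝕜 E) := {y | ∃ h : y ∈ C, (⟨y, h⟩ : C) ∈ K}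
  let ic : C' → C := fun y => ⟨y.1, y.2.1⟩
  have hic : Continuous ic := Continuous.subtype_mk continuous_subtype_val _
  have hicK : ∀ y, ic y ∈ K := fun y => y.2.2
  let T' : S → C' → C' := fun s y => ⟨(T s (ic y)).1, (T s (ic y)).2, hKinv s _ (hicK y)⟩
  have hT'ic : ∀ s y, ic (T' s y) = T s (ic y) := fun s y => rfl
  have hC'eq : C' = Subtype.val '' K := by
    ext y
    constructor
    · rintro ⟨h, hy⟩
      exact ⟨⟨y, h⟩, hy, rfl⟩
    · rintro ⟨x, hx, rfl⟩
      exact ⟨x.2, hx⟩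
  have hC'c : IsCompact C' := by
    rw [hC'eq]
    exact hK.isCompact.image continuous_subtype_val
  obtain ⟨k, hk⟩ := hKne
  obtain ⟨x, hx⟩ := Pool.Agent.Y972.WAP.main (𝕜 := 𝕜) (𝕂 := 𝕂) (S := S) (E := E) hS Q hQ C'
    ⟨k.1, k.2, hk⟩ hC'c
    (by
      rintro x ⟨hx, hxK⟩ y ⟨hy, hyK⟩ a b ha hb hab
      exact ⟨hconv x hx y hy a b ha hb hab, hKconv _ hxK _ hyK a b ha hb hab _ rfl⟩)
    T' (fun s t x => Subtype.ext (show (T (s * t) (ic x)).1 = (T s (T t (ic x))).1 by rw [hmul]))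
    (fun s => Continuous.subtype_mk (continuous_subtype_val.comp ((hT s).comp hic)) _)
    (fun x => Continuous.subtype_mk (continuous_subtype_val.comp (hTc (ic x))) _)
    (by
      intro g hg
      let ρ : (C → C) → (C' → WeakSpace 𝕜 E) := fun G y => (G (ic y)).1
      have hρ : Continuous ρ := continuous_pi fun y =>
        continuous_subtype_val.comp (continuous_apply (ic y))
      let v : (C' → C') → (C' → WeakSpace 𝕜 E) := fun G y => (G y).1
      have hv : Continuous v := continuous_pi fun y =>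
        continuous_subtype_val.comp (continuous_apply y)
      have hA : IsCompact (ρ '' closure (range T)) := (isClosed_closure.isCompact).image hρ
      have h1 : v g ∈ closure (v '' range T') := image_closure_subset_closure_image hv ⟨g, hg, rfl⟩
      have h2 : v '' range T' ⊆ ρ '' closure (range T) := by
        rintro _ ⟨_, ⟨s, rfl⟩, rfl⟩
        exact ⟨T s, subset_closure ⟨s, rfl⟩, rfl⟩
      obtain ⟨G, hG, hGg⟩ := closure_minimal h2 hA.isClosed h1
      rw [continuous_induced_rng]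
      have h3 : (Subtype.val ∘ g) = fun y => (G (ic y)).1 := hGg.symm
      rw [h3]
      exact continuous_subtype_val.comp ((hqe G hG).comp hic))
    (fun s i x y => hnonexp s i (ic x) (ic y))
  refine ⟨ic x, hicK x, fun s => ?_⟩
  rw [← hT'ic, hx]

end

end Pool.Agent.H54.NR
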